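import Pool.Agent.LibRankDiag.Equality

namespace Pool.Agent.Results.MP_bd2037_co.DiagonalProducts

open Finset Matrix

/-- row-stochastic matrices: nonnegative entries, all row sums equal to one -/
def RowStochastic {n : ℕ} (A : Matrix (Fin n) (Fin n) ℝ) : Prop :=
  (∀ i j, 0 ≤ A i j) ∧ ∀ i, ∑ j, A i j = 1

/-- the permutation matrix `π(σ)`, with entries `δ_{σ(i), j}` -/
def permMat {n : ℕ} (σ : Equiv.Perm (Fin n)) : Matrix (Fin n) (Fin n) ℝ :=
  fun i j => if σ i = j then 1 else 0

/-- `M(n,k)`, where `r = n / k` and `s = n % k` -/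
noncomputable def M (n k : ℕ) : ℝ :=
  (1 / ((n / k : ℕ) : ℝ) ^ (n / k)) ^ (k - n % k) *
    (1 / ((n / k + 1 : ℕ) : ℝ) ^ (n / k + 1)) ^ (n % k)

/-- the number of the block containing the index `i`: the first `k - s` blocks have `r` elements
each and the remaining `s` blocks have `r + 1` elements each -/
def blk (n k i : ℕ) : ℕ :=
  if i < (k - n % k) * (n / k) then i / (n / k)
  else (k - n % k) + (i - (k - n % k) * (n / k)) / (n / k + 1)

/-- the size of the block number `b` -/
def bsize (n k b : ℕ) : ℕ := if b < k - n % k then n / k else n / k + 1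

/-- the block-diagonal matrix `J_r` with constant blocks -/
noncomputable def J (n k : ℕ) : Matrix (Fin n) (Fin n) ℝ :=
  fun i j => if blk n k i = blk n k j then 1 / (bsize n k (blk n k i) : ℝ) else 0

section

variable {n k : ℕ}

lemma J_symm (i j : Fin n) : J n k i j = J n k j i := by
  unfold J
  by_cases h : blk n k i = blk n k j
  · rw [if_pos h, if_pos h.symm, h]
  · rw [if_neg h, if_neg (fun h' => h h'.symm)]

lemma card_interval (lo hi : ℕ) (hhi : hi ≤ n) :
    (univ.filter (fun i : Fin n => lo ≤ (i : ℕ) ∧ (i : ℕ) < hi)).card = hi - lo := by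
  rw [card_filter, Fin.sum_univ_eq_sum_range (fun i => if lo ≤ i ∧ i < hi then 1 else 0) n,
    ← card_filter]
  have : (range n).filter (fun i => lo ≤ i ∧ i < hi) = Ico lo hi := by
    ext i
    simp only [mem_filter, mem_range, mem_Ico]
    omega
  rw [this, Nat.card_Ico]

lemma n_eq (hk : 1 ≤ k) : n = (k - n % k) * (n / k) + n % k * (n / k + 1) := by
  have h1 := Nat.div_add_mod n k
  have h2 := Nat.mod_lt n hk
  have h3 : k * (n / k) = (k - n % k) * (n / k) + n % k * (n / k) := by
    rw [← Nat.add_mul, Nat.sub_add_cancel h2.le]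
  calc n = k * (n / k) + n % k := h1.symm
    _ = _ := by rw [h3]; ring

lemma div_iff {r : ℕ} (hr : 0 < r) (i t : ℕ) : i / r = t ↔ r * t ≤ i ∧ i < r * t + r := by
  constructor
  · rintro rfl
    have h1 := Nat.div_add_mod i r
    have h2 := Nat.mod_lt i hr
    omega
  · rintro ⟨h1, h2⟩
    apply Nat.div_eq_of_lt_le
    · rw [Nat.mul_comm]; exact h1
    · calc i < r * t + r := h2
        _ = (t + 1) * r := by ring

lemma blk_iff (hk : 1 ≤ k) (hkn : k ≤ n) (t : ℕ) (ht : t < k) (i : Fin n) :
    blk n k i = t ↔ (if t < k - n % k then (n / k) * t else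
      (k - n % k) * (n / k) + (n / k + 1) * (t - (k - n % k))) ≤ (i : ℕ) ∧
      (i : ℕ) < (if t < k - n % k then (n / k) * t else
      (k - n % k) * (n / k) + (n / k + 1) * (t - (k - n % k))) + bsize n k t := by
  have hr : 0 < n / k := Nat.div_pos hkn hk
  unfold blk bsize
  generalize hs : k - n % k = a
  generalize hr' : n / k = r at *
  by_cases h1 : t < a
  · rw [if_pos h1, if_pos h1]
    have h2 : r * t + r ≤ a * r := by
      calc r * t + r = r * (t + 1) := by ring
        _ ≤ r * a := Nat.mul_le_mul_left _ h1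
        _ = a * r := by ring
    by_cases h3 : (i : ℕ) < a * r
    · rw [if_pos h3, div_iff hr]
    · rw [if_neg h3]
      constructor
      · intro h
        exfalso
        have := Nat.le_add_right a (((i : ℕ) - a * r) / (r + 1))
        omega
      · rintro ⟨_, h6⟩
        omega
  · rw [if_neg h1, if_neg h1]
    by_cases h3 : (i : ℕ) < a * r
    · rw [if_pos h3]
      constructor
      · intro h
        have h4 : (i : ℕ) / r < a := Nat.div_lt_of_lt_mul (by rw [Nat.mul_comm]; exact h3)
        omega
      · rintro ⟨h6, _⟩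
        omega
    · rw [if_neg h3]
      have e1 : a + ((i : ℕ) - a * r) / (r + 1) = t ↔ ((i : ℕ) - a * r) / (r + 1) = t - a := by
        omega
      rw [e1, div_iff (r := r + 1) (by omega)]
      constructor
      · rintro ⟨h6, h7⟩
        constructor <;> omega
      · rintro ⟨h6, h7⟩
        constructor <;> omega

lemma hi_le (hk : 1 ≤ k) (t : ℕ) (ht : t < k) :
    (if t < k - n % k then (n / k) * t else
      (k - n % k) * (n / k) + (n / k + 1) * (t - (k - n % k))) + bsize n k t ≤ n := by
  have h0 := n_eq (n := n) hk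
  have h2 := Nat.mod_lt n hk
  unfold bsize
  by_cases h1 : t < k - n % k
  · rw [if_pos h1, if_pos h1]
    have h3 : (n / k) * t + n / k ≤ (k - n % k) * (n / k) := by
      calc (n / k) * t + n / k = (n / k) * (t + 1) := by ring
        _ ≤ (n / k) * (k - n % k) := Nat.mul_le_mul_left _ h1
        _ = _ := by ring
    omega
  · rw [if_neg h1, if_neg h1]
    have h3 : (n / k + 1) * (t - (k - n % k)) + (n / k + 1) ≤ n % k * (n / k + 1) := by
      calc (n / k + 1) * (t - (k - n % k)) + (n / k + 1) =
          (n / k + 1) * (t - (k - n % k) + 1) := by ring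
        _ ≤ (n / k + 1) * (n % k) := Nat.mul_le_mul_left _ (by omega)
        _ = _ := by ring
    omega

lemma card_blk (hk : 1 ≤ k) (hkn : k ≤ n) (t : ℕ) (ht : t < k) :
    (univ.filter (fun i : Fin n => blk n k i = t)).card = bsize n k t := by
  rw [filter_congr (fun i _ => blk_iff hk hkn t ht i), card_interval _ _ (hi_le hk t ht)]
  omega

lemma blk_lt (hk : 1 ≤ k) (i : Fin n) : blk n k i < k := by
  have h0 := n_eq (n := n) hk
  have h2 := Nat.mod_lt n hk
  have h3 := i.2
  unfold blk
  split_ifs with h
  · have : (i : ℕ) / (n / k) < k - n % k := Nat.div_lt_of_lt_mul (by rw [Nat.mul_comm]; exact h)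
    omega
  · have : ((i : ℕ) - (k - n % k) * (n / k)) / (n / k + 1) < n % k := by
      apply Nat.div_lt_of_lt_mul
      rw [Nat.mul_comm (n / k + 1)]
      omega
    omega

/-- the block number as a class function -/
def bc (hk : 1 ≤ k) (i : Fin n) : Fin k := ⟨blk n k i, blk_lt hk i⟩

lemma cs_bc (hk : 1 ≤ k) (hkn : k ≤ n) (t : Fin k) :
    LibRankDiag.cs (bc (n := n) hk) t = bsize n k t := by
  unfold LibRankDiag.cs
  rw [← card_blk hk hkn t t.2]
  congr 1
  apply filter_congr
  intro i _
  unfold bc
  rw [Fin.ext_iff]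

lemma J_prod (hk : 1 ≤ k) (hkn : k ≤ n) : ∏ i, J n k i i = M n k := by
  have h1 : ∀ i : Fin n, J n k i i = 1 / (bsize n k (bc (n := n) hk i) : ℝ) := by
    intro i
    unfold J bc
    rw [if_pos rfl]
  rw [prod_congr rfl (fun i _ => h1 i)]
  have h2 := prod_fiberwise (univ : Finset (Fin n)) (bc (n := n) hk)
    (fun i => 1 / (bsize n k (bc (n := n) hk i) : ℝ))
  rw [← h2]
  have h3 : ∀ t : Fin k, ∏ i ∈ univ.filter (fun i => bc (n := n) hk i = t),
      (1 / (bsize n k (bc (n := n) hk i) : ℝ)) = (1 / (bsize n k t : ℝ)) ^ (bsize n k t) := by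
    intro t
    rw [prod_congr rfl (g := fun _ => 1 / (bsize n k t : ℝ))]
    · rw [prod_const]
      congr 1
      exact cs_bc hk hkn t
    · intro i hi
      rw [(mem_filter.1 hi).2]
  rw [prod_congr rfl (fun t _ => h3 t),
    Fin.prod_univ_eq_prod_range (fun t => (1 / (bsize n k t : ℝ)) ^ (bsize n k t)) k]
  have h4 := Nat.mod_lt n hk
  have h5 : ∏ t ∈ range k, (1 / (bsize n k t : ℝ)) ^ (bsize n k t) =
      (∏ t ∈ range (k - n % k), (1 / (bsize n k t : ℝ)) ^ (bsize n k t)) *
      ∏ t ∈ Ico (k - n % k) k, (1 / (bsize n k t : ℝ)) ^ (bsize n k t) := by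
    rw [prod_range_mul_prod_Ico _ (Nat.sub_le _ _)]
  rw [h5]
  unfold M
  congr 1
  · rw [prod_congr rfl (g := fun _ => 1 / ((n / k : ℕ) : ℝ) ^ (n / k))]
    · rw [prod_const, card_range]
    · intro t ht
      unfold bsize
      rw [if_pos (mem_range.1 ht), div_pow, one_pow]
  · rw [prod_congr rfl (g := fun _ => 1 / ((n / k + 1 : ℕ) : ℝ) ^ (n / k + 1))]
    · rw [prod_const, Nat.card_Ico]
      congr 1
      omega
    · intro t ht
      unfold bsize
      rw [if_neg (not_lt.2 (mem_Ico.1 ht).1), div_pow, one_pow]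

lemma exists_perm {α β : Type*} [Fintype α] [DecidableEq β] (f g : α → β)
    (h : ∀ b, (univ.filter (fun a => f a = b)).card = (univ.filter (fun a => g a = b)).card) :
    ∃ e : Equiv.Perm α, ∀ a, g (e a) = f a := by
  have he : ∀ b, Nonempty ({a // f a = b} ≃ {a // g a = b}) := by
    intro b
    apply Fintype.card_eq.1
    rw [Fintype.card_subtype, Fintype.card_subtype]
    exact h b
  choose e he using fun b => (⟨Classical.choice (he b), trivial⟩ :
    ∃ _ : {a // f a = b} ≃ {a // g a = b}, True)
  exact ⟨Equiv.ofFiberEquiv e, Equiv.ofFiberEquiv_map e⟩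

/-- the entrywise form of the theorem, for the identity permutation -/
lemma main_id {A : Matrix (Fin n) (Fin n) ℝ} (hA : RowStochastic A) (hk : 1 ≤ k)
    (hkn : k ≤ n) (hr : A.rank ≤ k) : ∏ i, A i i ≤ M n k ∧ (∏ i, A i i = M n k ↔
      ∃ κ : Equiv.Perm (Fin n), ∀ p j, A p j = J n k (κ p) (κ j)) := by
  obtain ⟨h1, h2⟩ := LibRankDiag.diag_bound (A := A) hA hk hkn hr
  refine ⟨h1, ?_, ?_⟩
  · intro heq
    obtain ⟨c, hsz, hval⟩ := h2 heq
    -- relabelling of the classes
    have hcount : (univ.filter (fun t => decide (LibRankDiag.cs c t = n / k + 1) = true)).card =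
        n % k := by
      have e1 := LibRankDiag.sum_cs c
      have e2 : ∀ t, LibRankDiag.cs c t = n / k +
          if decide (LibRankDiag.cs c t = n / k + 1) = true then 1 else 0 := by
        intro t
        rcases hsz t with h | h
        · rw [h]; simp
        · rw [h]; simp
      rw [sum_congr rfl (fun t _ => e2 t), sum_add_distrib, ← card_filter, sum_const, card_univ,
        Fintype.card_fin, smul_eq_mul] at e1
      have e3 := Nat.div_add_mod n k
      omega
    have hcount2 : (univ.filter (fun t : Fin k => decide (¬ (t : ℕ) < k - n % k) = true)).card =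
        n % k := by
      have e1 : univ.filter (fun t : Fin k => decide (¬ (t : ℕ) < k - n % k) = true) =
          univ.filter (fun t : Fin k => k - n % k ≤ (t : ℕ) ∧ (t : ℕ) < k) := by
        apply filter_congr
        intro t _
        have := t.2
        rw [decide_eq_true_iff]
        omega
      rw [e1, card_interval _ _ le_rfl]
      have := Nat.mod_lt n hk
      omega
    have hcompl : ∀ (f : Fin k → Bool), (univ.filter (fun t => f t = false)).card =
        k - (univ.filter (fun t => f t = true)).card := by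
      intro f
      have := card_filter_add_card_filter_not (s := (univ : Finset (Fin k)))
        (p := fun t => f t = true)
      rw [card_univ, Fintype.card_fin] at this
      have e : univ.filter (fun t => ¬ f t = true) = univ.filter (fun t => f t = false) := by
        apply filter_congr
        intro t _
        simp
      rw [e] at this
      omega
    obtain ⟨θ, hθ⟩ := exists_perm (fun t => decide (LibRankDiag.cs c t = n / k + 1))
      (fun t : Fin k => decide (¬ (t : ℕ) < k - n % k)) (by
        intro b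
        cases b
        · rw [hcompl, hcompl, hcount, hcount2]
        · rw [hcount, hcount2])
    have hθ' : ∀ t, bsize n k (θ t) = LibRankDiag.cs c t := by
      intro t
      have e1 := hθ t
      unfold bsize
      by_cases h : LibRankDiag.cs c t = n / k + 1
      · simp only [h, decide_true, decide_eq_true_iff] at e1
        rw [if_neg e1, h]
      · simp only [h, decide_false, decide_eq_false_iff_not, not_not] at e1
        rw [if_pos e1]
        rcases hsz t with h' | h'
        · exact h'.symm
        · exact absurd h' h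
    obtain ⟨κ, hκ⟩ := exists_perm (fun i => θ (c i)) (bc (n := n) hk) (by
      intro b
      have e1 : (univ.filter (fun i => θ (c i) = b)).card = LibRankDiag.cs c (θ.symm b) := by
        unfold LibRankDiag.cs
        congr 1
        apply filter_congr
        intro i _
        rw [← Equiv.eq_symm_apply]
      rw [e1, ← hθ', Equiv.apply_symm_apply, ← cs_bc hk hkn b]
      rfl)
    refine ⟨κ, ?_⟩
    intro p j
    rw [hval p j]
    unfold J
    have e1 : ∀ i, blk n k (κ i) = (θ (c i) : ℕ) := by
      intro i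
      exact congrArg Fin.val (hκ i)
    rw [e1, e1]
    by_cases h : c p = c j
    · rw [if_pos h, if_pos (by rw [h]), h, hθ']
    · rw [if_neg h, if_neg]
      intro h'
      exact h (θ.injective (Fin.ext h'))
  · rintro ⟨κ, hκ⟩
    rw [prod_congr rfl (fun i _ => hκ i i), Equiv.prod_comp κ (fun i => J n k i i)]
    exact J_prod hk hkn

/-- the entrywise form of the theorem for row-stochastic matrices -/
lemma main_row {A : Matrix (Fin n) (Fin n) ℝ} (hA : RowStochastic A) (hk : 1 ≤ k)
    (hkn : k ≤ n) (hr : A.rank ≤ k) (σ : Equiv.Perm (Fin n)) :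
    ∏ i, A i (σ i) ≤ M n k ∧ (∏ i, A i (σ i) = M n k ↔
      ∃ κ : Equiv.Perm (Fin n), ∀ p j, A p (σ j) = J n k (κ p) (κ j)) := by
  have h1 : RowStochastic (A.submatrix (Equiv.refl (Fin n)) σ) := by
    constructor
    · intro i j
      exact hA.1 i (σ j)
    · intro i
      rw [← hA.2 i]
      exact Equiv.sum_comp σ (fun j => A i j)
  have h2 : (A.submatrix (Equiv.refl (Fin n)) σ).rank ≤ k := by
    rw [Matrix.rank_submatrix]
    exact hr
  exact main_id h1 hk hkn h2

/-- the entrywise form of the theorem for column-stochastic matrices -/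
lemma main_col {A : Matrix (Fin n) (Fin n) ℝ} (hA : RowStochastic Aᵀ) (hk : 1 ≤ k)
    (hkn : k ≤ n) (hr : A.rank ≤ k) (σ : Equiv.Perm (Fin n)) :
    ∏ i, A i (σ i) ≤ M n k ∧ (∏ i, A i (σ i) = M n k ↔
      ∃ κ : Equiv.Perm (Fin n), ∀ p j, A p (σ j) = J n k (κ p) (κ j)) := by
  have h2 : Aᵀ.rank ≤ k := by
    rw [Matrix.rank_transpose]
    exact hr
  have h3 := main_row hA hk hkn h2 σ.symm
  have h4 : ∏ i, Aᵀ i (σ.symm i) = ∏ i, A i (σ i) := by
    rw [← Equiv.prod_comp σ (fun i => Aᵀ i (σ.symm i))]
    apply prod_congr rfl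
    intro i _
    rw [Equiv.symm_apply_apply]
    rfl
  rw [h4] at h3
  refine ⟨h3.1, h3.2.trans ?_⟩
  constructor
  · rintro ⟨κ, hκ⟩
    refine ⟨σ.trans κ, ?_⟩
    intro p j
    have := hκ (σ j) (σ p)
    rw [Equiv.symm_apply_apply] at this
    rw [Equiv.trans_apply, Equiv.trans_apply, J_symm, ← this]
    rfl
  · rintro ⟨κ, hκ⟩
    refine ⟨σ.symm.trans κ, ?_⟩
    intro p j
    have := hκ (σ.symm j) (σ.symm p)
    rw [Equiv.apply_symm_apply] at this
    rw [Equiv.trans_apply, Equiv.trans_apply, J_symm, ← this]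
    rfl

lemma matrix_form (A : Matrix (Fin n) (Fin n) ℝ) (σ τ : Equiv.Perm (Fin n)) :
    A = (permMat τ)ᵀ * J n k * permMat τ * permMat σ ↔
      ∀ p j, A p (σ j) = J n k (τ.symm p) (τ.symm j) := by
  have key : ∀ p j, ((permMat τ)ᵀ * J n k * permMat τ * permMat σ) p (σ j) =
      J n k (τ.symm p) (τ.symm j) := by
    intro p j
    have e1 : ∀ (B : Matrix (Fin n) (Fin n) ℝ) (ρ : Equiv.Perm (Fin n)) (p j : Fin n),
        (B * permMat ρ) p j = B p (ρ.symm j) := by
      intro B ρ p j
      rw [Matrix.mul_apply, sum_eq_single (ρ.symm j)]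
      · unfold permMat
        rw [if_pos (Equiv.apply_symm_apply ρ j), mul_one]
      · intro l _ hl
        unfold permMat
        rw [if_neg, mul_zero]
        intro h
        exact hl (by rw [← h, Equiv.symm_apply_apply])
      · intro h
        exact absurd (mem_univ _) h
    have e2 : ∀ (B : Matrix (Fin n) (Fin n) ℝ) (ρ : Equiv.Perm (Fin n)) (p j : Fin n),
        ((permMat ρ)ᵀ * B) p j = B (ρ.symm p) j := by
      intro B ρ p j
      rw [Matrix.mul_apply, sum_eq_single (ρ.symm p)]
      · rw [Matrix.transpose_apply]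
        unfold permMat
        rw [if_pos (Equiv.apply_symm_apply ρ p), one_mul]
      · intro l _ hl
        rw [Matrix.transpose_apply]
        unfold permMat
        rw [if_neg, zero_mul]
        intro h
        exact hl (by rw [← h, Equiv.symm_apply_apply])
      · intro h
        exact absurd (mem_univ _) h
    rw [e1, e1, e2, Equiv.symm_apply_apply]
  constructor
  · intro h p j
    rw [← key p j, ← h]
  · intro h
    ext p j
    have := h p (σ.symm j)
    rw [Equiv.apply_symm_apply] at this
    rw [this]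
    have h2 := key p (σ.symm j)
    rw [Equiv.apply_symm_apply] at h2
    exact h2.symm

end

/-- For `1 ≤ k ≤ n`, every permutation `σ` and every row- or column-stochastic real matrix `A` of
rank at most `k`, the diagonal product along `σ` is at most `M(n,k)`, with equality exactly for
the matrices `Pᵀ J P π(σ)` with a permutation matrix `P` -/
theorem result (n k : ℕ) (hk : 1 ≤ k) (hkn : k ≤ n) (σ : Equiv.Perm (Fin n))
    (A : Matrix (Fin n) (Fin n) ℝ) (hA : RowStochastic A ∨ RowStochastic Aᵀ)
    (hr : A.rank ≤ k) :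
    ∏ i, A i (σ i) ≤ M n k ∧
      (∏ i, A i (σ i) = M n k ↔
        ∃ τ : Equiv.Perm (Fin n), A = (permMat τ)ᵀ * J n k * permMat τ * permMat σ) := by
  have h : ∏ i, A i (σ i) ≤ M n k ∧ (∏ i, A i (σ i) = M n k ↔
      ∃ κ : Equiv.Perm (Fin n), ∀ p j, A p (σ j) = J n k (κ p) (κ j)) := by
    rcases hA with h | h
    · exact main_row h hk hkn hr σ
    · exact main_col h hk hkn hr σ
  refine ⟨h.1, h.2.trans ?_⟩
  constructor
  · rintro ⟨κ, hκ⟩
    exact ⟨κ.symm, (matrix_form A σ κ.symm).2 hκ⟩
  · rintro ⟨τ, hτ⟩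
    exact ⟨τ.symm, (matrix_form A σ τ).1 hτ⟩

end Pool.Agent.Results.MP_bd2037_co.DiagonalProducts
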